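import Pool.Agent.Helper25.FN.Spec

set_option autoImplicit false

/-!
# Swarm FN, part IFTG: the implicit function theorem near a compact set
-/

namespace Pool.Agent.Helper51.FN.IFTG

open Pool.Agent.Helper25.FN
open scoped ContDiff Topology
open Set Filter

section Local

variable {X : Type} [NormedAddCommGroup X] [NormedSpace ℝ X] [CompleteSpace X]

theorem loc (F : X → X) (hF : ContDiff ℝ ∞ F) (p : X) (h : IsUnit (fderiv ℝ F p)) :
    (∃ u ∈ 𝓝 p, InjOn F u) ∧ ∃ g : X → X, ContDiffAt ℝ ∞ g (F p) ∧ g (F p) = p ∧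
      ∀ᶠ y in 𝓝 (F p), F (g y) = y := by
  obtain ⟨u, hu⟩ := h
  set e : X ≃L[ℝ] X := ContinuousLinearEquiv.unitsEquiv ℝ X u with he
  have hn : (∞ : WithTop ℕ∞) ≠ 0 := by simp
  have hd : HasFDerivAt F (e : X →L[ℝ] X) p := by
    have h1 : HasFDerivAt F (fderiv ℝ F p) p := (hF.differentiable hn p).hasFDerivAt
    have h2 : (e : X →L[ℝ] X) = fderiv ℝ F p := by
      rw [← hu]
      ext x
      rfl
    rw [h2]
    exact h1
  have hc : ContDiffAt ℝ ∞ F p := hF.contDiffAt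
  have hs := hc.hasStrictFDerivAt' hd hn
  refine ⟨⟨(hs.toOpenPartialHomeomorph F).source, (hs.toOpenPartialHomeomorph F).open_source.mem_nhds
    hs.mem_toOpenPartialHomeomorph_source, ?_⟩, hc.localInverse hd hn, hc.to_localInverse hd hn,
    hc.localInverse_apply_image hd hn, hs.eventually_right_inverse⟩
  exact (hs.toOpenPartialHomeomorph F).injOn

end Local

theorem main : S_IFTG := by
  intro E _ _ _ G K s₀ hG hK hs₀ h0 hb
  have hn : (∞ : WithTop ℕ∞) ≠ 0 := by simp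
  have : CompleteSpace (E × ℂ) := FiniteDimensional.complete ℝ (E × ℂ)
  set F : E × ℂ → E × ℂ := fun p => (p.1, G p) with hF
  have hFs : ContDiff ℝ ∞ F := contDiff_fst.prodMk hG
  -- the derivative is invertible on the graph
  have hunit : ∀ x ∈ K, IsUnit (fderiv ℝ F (x, s₀ x)) := by
    intro x hx
    obtain ⟨b, hb0, hb1⟩ := hb x hx
    have hGd : HasFDerivAt G (fderiv ℝ G (x, s₀ x)) (x, s₀ x) :=
      (hG.differentiable hn _).hasFDerivAt
    have hFd : HasFDerivAt F ((ContinuousLinearMap.fst ℝ E ℂ).prod (fderiv ℝ G (x, s₀ x)))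
        (x, s₀ x) := hasFDerivAt_fst.prodMk hGd
    rw [hFd.fderiv]
    have h2 : HasFDerivAt (fun s : ℂ => G (x, s))
        ((fderiv ℝ G (x, s₀ x)).comp (ContinuousLinearMap.inr ℝ E ℂ)) (s₀ x) := by
      have h3 : HasFDerivAt (fun s : ℂ => ((x, s) : E × ℂ)) (ContinuousLinearMap.inr ℝ E ℂ) (s₀ x) :=
        hasFDerivAt_prodMk_right x (s₀ x)
      exact hGd.comp (s₀ x) h3
    have h4 := h2.unique hb1
    have hinj : Function.Injective
        (((ContinuousLinearMap.fst ℝ E ℂ).prod (fderiv ℝ G (x, s₀ x)) :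
          (E × ℂ) →L[ℝ] (E × ℂ)) : (E × ℂ) →ₗ[ℝ] (E × ℂ)) := by
      rw [injective_iff_map_eq_zero]
      rintro ⟨v, w⟩ hvw
      have h5 : v = 0 ∧ fderiv ℝ G (x, s₀ x) (v, w) = 0 := by
        have := Prod.ext_iff.1 hvw
        simpa using this
      obtain ⟨hv, hw⟩ := h5
      subst hv
      have h6 := congrArg (fun L : ℂ →L[ℝ] ℂ => L w) h4
      simp only [ContinuousLinearMap.comp_apply, ContinuousLinearMap.inr_apply, hw] at h6
      have h7 : b * w = 0 := by simpa using h6.symm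
      have h8 : w = 0 := by
        rcases mul_eq_zero.1 h7 with h | h
        · exact absurd h hb0
        · exact h
      rw [h8]
      rfl
    set e := (LinearEquiv.ofInjectiveEndo _ hinj).toContinuousLinearEquiv with he
    have h9 : ((ContinuousLinearMap.fst ℝ E ℂ).prod (fderiv ℝ G (x, s₀ x)) :
          (E × ℂ) →L[ℝ] (E × ℂ)) = ((ContinuousLinearEquiv.unitsEquiv ℝ (E × ℂ)).symm e :
            (E × ℂ) →L[ℝ] (E × ℂ)) := by
      refine ContinuousLinearMap.ext fun y => ?_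
      rfl
    rw [h9]
    exact Units.isUnit _
  -- the graph
  set Γ : Set (E × ℂ) := (fun x => (x, s₀ x)) '' K with hΓ
  have hΓc : IsCompact Γ := hK.image_of_continuousOn (continuousOn_id.prodMk hs₀)
  have hinj : InjOn F Γ := by
    rintro _ ⟨x, hx, rfl⟩ _ ⟨y, hy, rfl⟩ hxy
    have h1 : x = y := (Prod.ext_iff.1 hxy).1
    subst h1
    rfl
  obtain ⟨T, hT, hTi⟩ := hinj.exists_mem_nhdsSet hΓc (fun p _ => hFs.continuous.continuousAt)
    (by
      rintro _ ⟨x, hx, rfl⟩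
      exact (loc F hFs _ (hunit x hx)).1)
  obtain ⟨W₀, hW₀o, hW₀Γ, hW₀T⟩ := mem_nhdsSet_iff_exists.1 hT
  set W : Set (E × ℂ) := W₀ ∩ {p | IsUnit (fderiv ℝ F p)} with hW
  have hWo : IsOpen W := by
    refine hW₀o.inter ?_
    exact (Units.isOpen (R := (E × ℂ) →L[ℝ] (E × ℂ))).preimage (hFs.continuous_fderiv hn)
  have hWΓ : ∀ x ∈ K, (x, s₀ x) ∈ W := fun x hx => ⟨hW₀Γ ⟨x, hx, rfl⟩, hunit x hx⟩
  have hWi : InjOn F W := hTi.mono fun p hp => hW₀T hp.1
  classical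
  set U : Set E := {x | ∃ t : ℂ, (x, t) ∈ W ∧ G (x, t) = 0} with hU
  set s : E → ℂ := fun x => if h : ∃ t : ℂ, (x, t) ∈ W ∧ G (x, t) = 0 then h.choose else 0 with hs
  have hsU : ∀ x ∈ U, (x, s x) ∈ W ∧ G (x, s x) = 0 := by
    intro x hx
    have hx' : ∃ t : ℂ, (x, t) ∈ W ∧ G (x, t) = 0 := hx
    have h1 : s x = hx'.choose := by
      simp only [hs]
      rw [dif_pos hx']
    rw [h1]
    exact hx'.choose_spec
  have huniq : ∀ (x : E) (t : ℂ), (x, t) ∈ W → G (x, t) = 0 → s x = t := by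
    intro x t h1 h2
    have h3 := hsU x ⟨t, h1, h2⟩
    have h4 : F (x, s x) = F (x, t) := by
      simp only [hF]
      rw [h2, h3.2]
    exact (Prod.ext_iff.1 (hWi h3.1 h1 h4)).2
  -- local structure
  have key : ∀ x ∈ U, (∀ᶠ y in 𝓝 x, y ∈ U) ∧ ContDiffAt ℝ ∞ s x := by
    intro x hx
    obtain ⟨h1, h2⟩ := hsU x hx
    obtain ⟨g, hg1, hg2, hg3⟩ := (loc F hFs (x, s x) h1.2).2
    have h3 : F (x, s x) = (x, 0) := by
      simp only [hF]
      rw [h2]
    rw [h3] at hg1 hg2 hg3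
    have hι : ContDiff ℝ ∞ (fun y : E => ((y, 0) : E × ℂ)) := contDiff_id.prodMk contDiff_const
    have h4 : ∀ᶠ y in 𝓝 x, g (y, 0) ∈ W ∧ F (g (y, 0)) = (y, 0) := by
      have ht : Tendsto (fun y : E => ((y, 0) : E × ℂ)) (𝓝 x) (𝓝 (x, 0)) :=
        hι.continuous.tendsto x
      have h5 : ∀ᶠ q in 𝓝 ((x, 0) : E × ℂ), g q ∈ W := by
        refine hg1.continuousAt.eventually_mem ?_
        rw [hg2]
        exact hWo.mem_nhds h1
      exact ht.eventually (h5.and hg3)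
    have h6 : ∀ᶠ y in 𝓝 x, (y, (g (y, 0)).2) ∈ W ∧ G (y, (g (y, 0)).2) = 0 := by
      refine h4.mono fun y hy => ?_
      have h7 := Prod.ext_iff.1 hy.2
      have h8 : (g (y, 0)).1 = y := h7.1
      have h9 : G (g (y, 0)) = 0 := h7.2
      have h10 : (y, (g (y, 0)).2) = g (y, 0) := by
        rw [Prod.ext_iff]
        exact ⟨h8.symm, rfl⟩
      rw [h10]
      exact ⟨hy.1, h9⟩
    refine ⟨h6.mono fun y hy => ⟨_, hy.1, hy.2⟩, ?_⟩
    have h11 : s =ᶠ[𝓝 x] fun y => (g (y, 0)).2 := h6.mono fun y hy => huniq y _ hy.1 hy.2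
    refine ContDiffAt.congr_of_eventuallyEq ?_ h11
    exact contDiffAt_snd.comp x (ContDiffAt.comp x hg1 hι.contDiffAt)
  refine ⟨U, s, ?_, fun x hx => ⟨s₀ x, hWΓ x hx, h0 x hx⟩, fun x hx => (key x hx).2.contDiffWithinAt,
    fun x hx => huniq x _ (hWΓ x hx) (h0 x hx), fun x hx => (hsU x hx).2⟩
  rw [isOpen_iff_eventually]
  exact fun x hx => (key x hx).1

end Pool.Agent.Helper51.FN.IFTG
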